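import Pool.Agent.Helper12.NK.St

/-!
# Project NK, module EDF: every edge lies in two faces
-/

set_option autoImplicit false

namespace Pool.Agent.Helper24.NK

open Pool.Agent.Helper12.NK
open Pool.Agent.Helper51.AJ (IsMinor Planar Apex ExMinor Con Tch con_singleton)
open Pool.Agent.Helper35.PM (Rot)

private lemma finite_dart {V : Type} [Finite V] (H : SimpleGraph V) : Finite H.Dart :=
  Finite.of_injective (fun d : H.Dart => d.toProd) fun _ _ h => SimpleGraph.Dart.ext _ _ h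

private lemma con_inl {V : Type} {G : SimpleGraph V} {U K : Set V} {R : Rot (rst G U)} (h : Con (rst G U) K) :
    Con (rplus R) (Sum.inl '' K) := by
  let f : (rst G U).induce K →g (rplus R).induce (Sum.inl '' K) :=
    { toFun := fun x => ⟨Sum.inl x.1, x.1, x.2, rfl⟩
      map_rel' := fun {x y} hxy => hxy }
  refine SimpleGraph.Connected.map f ?_ h
  rintro ⟨_, x, hx, rfl⟩
  exact ⟨⟨x, hx⟩, rfl⟩

/-- EDF. -/
theorem hEDF (hKCA : StKCA) (hKCB : StKCB) (hMNR : StMNR) (hKUR : StKUR) (hFCY : StFCY) (hPER : StPER)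
    (hPLU : StPLU) (hRPW : StRPW) : StEDF := by
  intro V _ G U a b hK hP ha hb hab
  obtain ⟨R⟩ := hKUR V G U hK hP
  obtain ⟨k1, -, -, k4, -, -, -, -⟩ := hKCA V G U
  have hK2 : Kc 2 G U := k1 2 hK
  let d : (rst G U).Dart := ⟨(a, b), hab, ha, hb⟩
  obtain ⟨⟨m, c, hc, hr, -⟩, hn⟩ := hFCY V G U R hK2 d
  obtain ⟨⟨m', c', hc', hr', -⟩, -⟩ := hFCY V G U R hK2 d.symm
  have hp := hPER V G U R hK m c hc
  have hp' := hPER V G U R hK m' c' hc'
  have hs : ∀ e : (rst G U).Dart, e.fst ∈ fac R e := fun e => ⟨e, Equiv.Perm.SameCycle.refl _ _, rfl⟩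
  have ht : ∀ e : (rst G U).Dart, e.snd ∈ fac R e := fun e =>
    ⟨R.φ e, (Equiv.Perm.SameCycle.refl _ _).apply_right, R.φ_fst e⟩
  refine ⟨fac R d, fac R d.symm, ⟨m, c, hp, hr⟩, ⟨m', c', hp', hr'⟩, ?_, hs d, ht d, ht d.symm, hs d.symm⟩
  intro hF
  have hfin : Finite (rst G U).Dart := finite_dart _
  have hpl : Planar (rplus R) := hRPW _ _ (hPLU V _ R)
  have hm := hc.1
  have hinj := hc.2.1
  have h3 : ∀ i j : Fin 3, i ≠ j → (((i : ℕ) : ZMod m)) ≠ ((j : ℕ) : ZMod m) := by
    intro i j hij h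
    rw [ZMod.natCast_eq_natCast_iff'] at h
    rw [Nat.mod_eq_of_lt (by omega), Nat.mod_eq_of_lt (by omega)] at h
    exact hij (Fin.ext h)
  let s : Fin 3 → V := fun i => c ((i : ℕ) : ZMod m)
  have hsi : Function.Injective s := by
    intro i j h
    by_contra hij
    exact h3 i j hij (hinj h)
  have hsU : ∀ i, s i ∈ U := fun i => hp.2.2.1 ⟨_, rfl⟩
  have hsF : ∀ i, s i ∈ fac R d := fun i => by rw [← hr]; exact ⟨_, rfl⟩
  have hsF' : ∀ i, s i ∈ fac R d.symm := fun i => by rw [← hF]; exact hsF i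
  obtain ⟨K, hKs, hKc, hKt⟩ := ((hKCB V G U).1 3 (Set.range s) hK (by rintro _ ⟨i, rfl⟩; exact hsU i)
    (by rw [← Set.image_univ, Set.ncard_image_of_injective _ hsi, Set.ncard_univ, Nat.card_eq_fintype_card,
          Fintype.card_fin])).1
  have hKU : K ⊆ U := fun x hx => (hKs hx).1
  have hKr : Con (rst G U) K := (k4 K hKU).1 hKc
  refine (hMNR _ (rplus R) hpl).2 (fun i => {Sum.inl (s i)})
    ![{Sum.inr (Quotient.mk _ d)}, {Sum.inr (Quotient.mk _ d.symm)}, Sum.inl '' K] ?_ ?_ ?_ ?_ ?_ ?_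
  · intro i
    exact con_singleton _ _
  · intro i
    fin_cases i
    · exact con_singleton _ _
    · exact con_singleton _ _
    · exact con_inl hKr
  · intro i j hij
    rw [Set.disjoint_singleton]
    intro h
    exact hij (hsi (Sum.inl_injective h))
  · have h01 : Disjoint ({Sum.inr (Quotient.mk _ d)} : Set (V ⊕ Quotient (Equiv.Perm.SameCycle.setoid R.φ)))
        {Sum.inr (Quotient.mk _ d.symm)} := by
      rw [Set.disjoint_singleton]
      intro h
      exact hn (Quotient.exact (Sum.inr_injective h))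
    have h2 : ∀ q : Quotient (Equiv.Perm.SameCycle.setoid R.φ),
        Disjoint ({Sum.inr q} : Set (V ⊕ Quotient (Equiv.Perm.SameCycle.setoid R.φ))) (Sum.inl '' K) := by
      intro q
      rw [Set.disjoint_singleton_left]
      rintro ⟨x, -, hx⟩
      exact Sum.inl_ne_inr hx
    intro i j hij
    fin_cases i <;> fin_cases j <;> first | exact absurd rfl hij | skip
    · exact h01
    · exact h2 _
    · exact h01.symm
    · exact h2 _
    · exact (h2 _).symm
    · exact (h2 _).symm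
  · intro i j
    fin_cases j
    · exact Set.disjoint_singleton.2 Sum.inl_ne_inr
    · exact Set.disjoint_singleton.2 Sum.inl_ne_inr
    · refine Set.disjoint_singleton_left.2 ?_
      rintro ⟨x, hx, hx'⟩
      exact (hKs hx).2 ⟨i, (Sum.inl_injective hx').symm⟩
  · intro i j
    fin_cases j
    · obtain ⟨e, he, he'⟩ := hsF i
      exact ⟨_, rfl, _, rfl, e, Quotient.sound he.symm, he'⟩
    · obtain ⟨e, he, he'⟩ := hsF' i
      exact ⟨_, rfl, _, rfl, e, Quotient.sound he.symm, he'⟩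
    · obtain ⟨x, hx, y, hy, hxy⟩ := hKt (s i) ⟨i, rfl⟩
      have hx' : x = s i := hx
      subst hx'
      exact ⟨_, rfl, _, ⟨y, hy, rfl⟩, hxy, hsU i, hKU hy⟩

end Pool.Agent.Helper24.NK
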